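import Pool.Agent.H84.TO.Main

/-!
# The persistence exponent of truncated random orthogonal matrices

For every `ℓ ≥ 2` the probability that the top left `2n × 2n` block of a Haar distributed
orthogonal matrix of size `2n + ℓ` has no real eigenvalue is positive and equal to
`n ^ (-2 θ(ℓ) + o(1))`.
-/

open MeasureTheory Filter Topology

namespace Pool.Agent.Results.MP_b4e73a_pr.PersistenceExponent

/-- the truncation `M` of an orthogonal matrix of size `2n + ℓ`: delete the last `ℓ` rows and the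
last `ℓ` columns -/
def truncation (n ℓ : ℕ) (O : Matrix.orthogonalGroup (Fin (2 * n + ℓ)) ℝ) :
    Matrix (Fin (2 * n)) (Fin (2 * n)) ℝ :=
  (O : Matrix (Fin (2 * n + ℓ)) (Fin (2 * n + ℓ)) ℝ).submatrix (Fin.castAdd ℓ) (Fin.castAdd ℓ)

/-- the event that the truncation has no real eigenvalue -/
def noRealEigenvalue (n ℓ : ℕ) : Set (Matrix.orthogonalGroup (Fin (2 * n + ℓ)) ℝ) :=
  {O | ∀ x : ℝ, ¬ Module.End.HasEigenvalue (Matrix.toLin' (truncation n ℓ O)) x}

/-- the exponent `θ(ℓ)` -/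
noncomputable def theta (ℓ : ℕ) : ℝ :=
  -(1 / (2 * Real.pi)) * ∫ x in Set.Ioi (0 : ℝ),
    Real.log (1 - ‖Complex.Gamma ((ℓ : ℂ) / 2 + x * Complex.I) / Complex.Gamma ((ℓ : ℂ) / 2)‖ ^ 2)

/-- For every `ℓ ≥ 2` and every sequence of Haar probability measures `μ n` on the orthogonal
groups `O(2n+ℓ)` (with their Borel sigma-algebras), the probability `p_{2n}` that the truncation
has no real eigenvalue is positive and `log p_{2n} / log n` tends to `-2 θ(ℓ)`. -/
theorem result (ℓ : ℕ) (hℓ : 2 ≤ ℓ)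
    [inst : ∀ n : ℕ, MeasurableSpace (Matrix.orthogonalGroup (Fin (2 * n + ℓ)) ℝ)]
    [hB : ∀ n : ℕ, BorelSpace (Matrix.orthogonalGroup (Fin (2 * n + ℓ)) ℝ)]
    (μ : ∀ n : ℕ, Measure (Matrix.orthogonalGroup (Fin (2 * n + ℓ)) ℝ))
    [hp : ∀ n : ℕ, IsProbabilityMeasure (μ n)] [hi : ∀ n : ℕ, (μ n).IsMulLeftInvariant] :
    (∀ n : ℕ, 0 < (μ n).real (noRealEigenvalue n ℓ)) ∧
    Tendsto (fun n : ℕ => Real.log ((μ n).real (noRealEigenvalue n ℓ)) / Real.log n) atTop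
      (𝓝 (-2 * theta ℓ)) :=
  Pool.Agent.H84.TO.fin_borel Pool.Agent.H84.TO.tEXF Pool.Agent.H84.TO.tNRM
    Pool.Agent.H84.TO.tASY Pool.Agent.H84.TO.tGRM Pool.Agent.H84.TO.tTR2 Pool.Agent.H84.TO.tK3
    Pool.Agent.H84.TO.tDET ℓ hℓ inst hB μ hp hi

end Pool.Agent.Results.MP_b4e73a_pr.PersistenceExponent
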